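import Pool.Agent.W207.PF.SpecB

/-! PF-MASS (helper207): sizes of the weighted pair sums. -/

set_option autoImplicit false

open Complex Filter Topology Set MeasureTheory
open scoped BigOperators

namespace Pool.Agent.W688.PF.MASS

open W207.PF
open W207.PR (ZT mz X P)
open W207.PU (UBU)
open Pool.Agent.W338.PR (ps ps_abs ps_mono ps_const_mul mass X_pos)

lemma LT_eq (T : ℝ) (φ : ℝ → ℝ) : W207.PF.LT T φ = ps (ZT T ×ˢ ZT T)
    (fun d => φ (d * Real.log T / (2 * Real.pi)) * (4 / (4 + d ^ 2))) / X T := by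
  unfold W207.PF.LT ps
  rw [Finset.sum_product]

theorem main : S_MASS := by
  rintro ⟨C, T0, hC, hT0, hUB⟩
  refine ⟨16 * C, T0, by positivity, hT0, ?_⟩
  intro T hT φ K hφ
  have hm := mass hC hT0 hUB hT
  have hX : 0 < X T := X_pos (hT0.trans hT)
  have hK : 0 ≤ K := le_trans (by positivity) (hφ 0)
  have hL : 0 < Real.log T := Real.log_pos (by linarith)
  have hp : (0 : ℝ) < 2 * Real.pi := by positivity
  set f : ℝ → ℝ := fun d => φ (d * Real.log T / (2 * Real.pi)) * (4 / (4 + d ^ 2)) with hf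
  have hle : ∀ d, |f d| ≤ K * (1 / (1 + |d| * Real.log T / (2 * Real.pi)) ^ 3) := by
    intro d
    have h1 := hφ (d * Real.log T / (2 * Real.pi))
    have h2 : |d * Real.log T / (2 * Real.pi)| = |d| * Real.log T / (2 * Real.pi) := by
      rw [abs_div, abs_mul, abs_of_pos hL, abs_of_pos hp]
    rw [h2] at h1
    have h3 : 0 < (1 + |d| * Real.log T / (2 * Real.pi)) ^ 3 := by positivity
    have h4 : |f d| ≤ |φ (d * Real.log T / (2 * Real.pi))| := by
      simp only [hf]
      rw [abs_mul]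
      have h5 : 0 < 4 + d ^ 2 := by positivity
      have h6 : |4 / (4 + d ^ 2)| ≤ 1 := by
        rw [abs_of_pos (by positivity), div_le_one h5]
        nlinarith [sq_nonneg d]
      exact mul_le_of_le_one_right (abs_nonneg _) h6
    rw [mul_one_div, le_div_iff₀ h3]
    exact (mul_le_mul_of_nonneg_right h4 h3.le).trans h1
  rw [LT_eq, abs_div, abs_of_pos hX, div_le_iff₀ hX]
  calc |ps (ZT T ×ˢ ZT T) f| ≤ ps (ZT T ×ˢ ZT T) (fun d => |f d|) := ps_abs _ _
    _ ≤ ps (ZT T ×ˢ ZT T) (fun d => K * (1 / (1 + |d| * Real.log T / (2 * Real.pi)) ^ 3)) :=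
        ps_mono fun p _ => hle _
    _ = K * ps (ZT T ×ˢ ZT T) (fun d => 1 / (1 + |d| * Real.log T / (2 * Real.pi)) ^ 3) :=
        ps_const_mul _ _ _
    _ ≤ K * (16 * C * X T) := mul_le_mul_of_nonneg_left hm hK
    _ = 16 * C * K * X T := by ring

end Pool.Agent.W688.PF.MASS
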