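import Pool.Agent.W207.PF.SpecA

/-! PF-SAND (helper207): from smooth functions to windows. -/

set_option autoImplicit false

open Filter Topology Set MeasureTheory

namespace Pool.Agent.W688.PF.SAND

open W207.PF

/-- smooth bump: zero outside `(c, d)`, one on `[c + δ, d - δ]` -/
noncomputable def bump (c d δ x : ℝ) : ℝ :=
  Real.smoothTransition ((x - c) / δ) * Real.smoothTransition ((d - x) / δ)

lemma bump_smooth (c d δ : ℝ) (n : ℕ) : ContDiff ℝ n (bump c d δ) := by
  unfold bump
  have h1 : ContDiff ℝ n (fun x : ℝ => (x - c) / δ) := by fun_prop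
  have h2 : ContDiff ℝ n (fun x : ℝ => (d - x) / δ) := by fun_prop
  exact (Real.smoothTransition.contDiff.comp h1).mul (Real.smoothTransition.contDiff.comp h2)

lemma bump_cont (c d δ : ℝ) : Continuous (bump c d δ) := (bump_smooth c d δ 0).continuous

lemma bump_nonneg (c d δ x : ℝ) : 0 ≤ bump c d δ x :=
  mul_nonneg (Real.smoothTransition.nonneg _) (Real.smoothTransition.nonneg _)

lemma bump_le (c d δ x : ℝ) : bump c d δ x ≤ 1 :=
  mul_le_one₀ (Real.smoothTransition.le_one _) (Real.smoothTransition.nonneg _)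
    (Real.smoothTransition.le_one _)

lemma bump_zero {c d δ x : ℝ} (hδ : 0 < δ) (h : x ≤ c ∨ d ≤ x) : bump c d δ x = 0 := by
  unfold bump
  rcases h with h | h
  · rw [Real.smoothTransition.zero_of_nonpos (div_nonpos_of_nonpos_of_nonneg (by linarith) hδ.le),
      zero_mul]
  · rw [Real.smoothTransition.zero_of_nonpos (x := (d - x) / δ)
      (div_nonpos_of_nonpos_of_nonneg (by linarith) hδ.le), mul_zero]

lemma bump_one {c d δ x : ℝ} (hδ : 0 < δ) (h1 : c + δ ≤ x) (h2 : x ≤ d - δ) :
    bump c d δ x = 1 := by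
  unfold bump
  rw [Real.smoothTransition.one_of_one_le (by rw [le_div_iff₀ hδ]; linarith),
    Real.smoothTransition.one_of_one_le (by rw [le_div_iff₀ hδ]; linarith), mul_one]

lemma bump_cs {c d δ : ℝ} (hδ : 0 < δ) : HasCompactSupport (bump c d δ) := by
  apply HasCompactSupport.intro (K := Icc c d) isCompact_Icc
  intro x hx
  apply bump_zero hδ
  by_contra hcon
  push Not at hcon
  exact hx ⟨hcon.1.le, hcon.2.le⟩

lemma int_bump {c d δ : ℝ} (hδ : 0 < δ) {f : ℝ → ℝ} (hf : Continuous f) :
    Integrable (fun x => bump c d δ x * f x) :=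
  ((bump_cont c d δ).mul hf).integrable_of_hasCompactSupport (bump_cs hδ).mul_right

/-- upper bound -/
lemma bump_up {c d δ : ℝ} (hδ : 0 < δ) (hcd : c ≤ d) {f : ℝ → ℝ} (hf : Continuous f)
    (h0 : ∀ x, 0 ≤ f x) : ∫ x, bump c d δ x * f x ≤ ∫ x in c..d, f x := by
  rw [intervalIntegral.integral_of_le hcd, ← integral_Icc_eq_integral_Ioc,
    ← setIntegral_eq_integral_of_forall_compl_eq_zero (s := Icc c d) (fun x hx => by
      rw [bump_zero hδ, zero_mul]
      by_contra hcon
      push Not at hcon
      exact hx ⟨hcon.1.le, hcon.2.le⟩)]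
  apply setIntegral_mono (int_bump hδ hf).integrableOn (hf.integrableOn_Icc)
  intro x
  have := h0 x
  have h1 := bump_le c d δ x
  simp only
  nlinarith

/-- lower bound -/
lemma bump_low {c d δ c' d' : ℝ} (hδ : 0 < δ) (hcd : c' ≤ d') (h1 : c + δ ≤ c')
    (h2 : d' ≤ d - δ) {f : ℝ → ℝ} (hf : Continuous f)
    (h0 : ∀ x, 0 ≤ f x) : ∫ x in c'..d', f x ≤ ∫ x, bump c d δ x * f x := by
  rw [intervalIntegral.integral_of_le hcd, ← integral_Icc_eq_integral_Ioc]
  have e1 : ∫ x in Icc c' d', f x = ∫ x in Icc c' d', bump c d δ x * f x := by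
    apply setIntegral_congr_fun measurableSet_Icc
    intro x hx
    simp only
    rw [bump_one hδ (by linarith [hx.1]) (by linarith [hx.2]), one_mul]
  rw [e1]
  exact setIntegral_le_integral (int_bump hδ hf)
    (Eventually.of_forall fun x => mul_nonneg (bump_nonneg _ _ _ _) (h0 x))

lemma m_cont : Continuous fun x : ℝ => min |x| 1 := by fun_prop

lemma m_nonneg (x : ℝ) : 0 ≤ min |x| 1 := le_min (abs_nonneg _) zero_le_one

/-- integrals of `min |x| 1` over short intervals -/
lemma m_short {c d : ℝ} (hcd : c ≤ d) : 0 ≤ ∫ x in c..d, min |x| 1 ∧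
    ∫ x in c..d, min |x| 1 ≤ d - c := by
  constructor
  · exact intervalIntegral.integral_nonneg hcd fun x _ => m_nonneg x
  · have h1 : ∫ x in c..d, min |x| 1 ≤ ∫ _x in c..d, (1 : ℝ) :=
      intervalIntegral.integral_mono_on hcd (m_cont.intervalIntegrable _ _)
        (continuous_const.intervalIntegrable _ _) fun x _ => min_le_right _ _
    simpa using h1

theorem main : S_SAND := by
  intro l F S hS hF hψ a b ha hab hb ha0 hb0
  obtain ⟨I, hI⟩ : ∃ I : ℝ, I = if a < 0 ∧ 0 < b then 1 else 0 := ⟨_, rfl⟩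
  rw [← hI]
  rw [Metric.tendsto_nhds]
  intro ε hε
  -- the choice of `δ`
  obtain ⟨δ, hδ, hδa, hδb, hδab, hδS, hδε⟩ : ∃ δ : ℝ, 0 < δ ∧ δ ≤ |a| ∧ δ ≤ |b| ∧ 2 * δ ≤ b - a ∧
      max |a| |b| + δ < S ∧ δ ≤ ε / 8 := by
    have h1 : 0 < |a| := abs_pos.mpr ha0
    have h2 : 0 < |b| := abs_pos.mpr hb0
    have h3 : max |a| |b| < S := max_lt (abs_lt.mpr ⟨ha, by linarith⟩) (abs_lt.mpr ⟨by linarith, hb⟩)
    refine ⟨min (min |a| |b|) (min ((b - a) / 2) (min ((S - max |a| |b|) / 2) (ε / 8))),
      ?_, ?_, ?_, ?_, ?_, ?_⟩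
    · refine lt_min (lt_min h1 h2) (lt_min (by linarith) (lt_min (by linarith) (by linarith)))
    · exact (min_le_left _ _).trans (min_le_left _ _)
    · exact (min_le_left _ _).trans (min_le_right _ _)
    · have := (min_le_right (min |a| |b|) (min ((b - a) / 2) (min ((S - max |a| |b|) / 2)
        (ε / 8)))).trans (min_le_left _ _)
      linarith
    · have := (min_le_right (min |a| |b|) (min ((b - a) / 2) (min ((S - max |a| |b|) / 2)
        (ε / 8)))).trans ((min_le_right _ _).trans (min_le_left _ _))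
      linarith
    · exact (min_le_right (min |a| |b|) (min ((b - a) / 2) (min ((S - max |a| |b|) / 2)
        (ε / 8)))).trans ((min_le_right _ _).trans (min_le_right _ _))
  have hMa : |a| ≤ max |a| |b| := le_max_left _ _
  have hMb : |b| ≤ max |a| |b| := le_max_right _ _
  have hμ : 0 < max |a| |b| + δ := by linarith [abs_nonneg a]
  -- supports
  have hsup : ∀ x, max |a| |b| + δ ≤ |x| → x ≤ a - δ ∨ b + δ ≤ x := by
    intro x hx
    rcases le_total 0 x with h | h
    · right
      rw [abs_of_nonneg h] at hx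
      linarith [le_abs_self b]
    · left
      rw [abs_of_nonpos h] at hx
      linarith [neg_abs_le a]
  have l1 := hψ (bump a b δ) (bump_smooth a b δ) ⟨max |a| |b| + δ, hμ, hδS, fun x hx => by
    apply bump_zero hδ
    rcases hsup x hx with h | h
    · left; linarith
    · right; linarith⟩
  have l2 := hψ (bump (a - δ) (b + δ) δ) (bump_smooth _ _ δ) ⟨max |a| |b| + δ, hμ, hδS,
    fun x hx => bump_zero hδ (hsup x hx)⟩
  -- values at zero
  have z1 : bump a b δ 0 = I := by
    rw [hI]
    split_ifs with h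
    · apply bump_one hδ
      · rw [abs_of_neg h.1] at hδa; linarith
      · rw [abs_of_pos h.2] at hδb; linarith
    · apply bump_zero hδ
      by_contra hcon
      push Not at hcon
      exact h hcon
  have z2 : bump (a - δ) (b + δ) δ 0 = I := by
    rw [hI]
    split_ifs with h
    · apply bump_one hδ
      · linarith [h.1]
      · linarith [h.2]
    · apply bump_zero hδ
      rcases lt_or_gt_of_ne ha0 with h1 | h1
      · right
        have h2 : b < 0 := by
          by_contra h3
          exact h ⟨h1, lt_of_le_of_ne (not_lt.mp h3) hb0.symm⟩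
        rw [abs_of_neg h2] at hδb
        linarith
      · left
        rw [abs_of_pos h1] at hδa
        linarith
  rw [z1] at l1
  rw [z2] at l2
  -- the main terms
  have m2 : ∫ x, min |x| 1 * bump (a - δ) (b + δ) δ x ≤ (∫ x in a..b, min |x| 1) + 2 * δ := by
    have h1 := bump_up (c := a - δ) (d := b + δ) hδ (by linarith) m_cont m_nonneg
    have h2 : ∫ x in (a - δ)..(b + δ), min |x| 1 = (∫ x in (a - δ)..a, min |x| 1) +
        (∫ x in a..b, min |x| 1) + ∫ x in b..(b + δ), min |x| 1 := by
      rw [intervalIntegral.integral_add_adjacent_intervals (m_cont.intervalIntegrable _ _)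
        (m_cont.intervalIntegrable _ _), intervalIntegral.integral_add_adjacent_intervals
        (m_cont.intervalIntegrable _ _) (m_cont.intervalIntegrable _ _)]
    have h3 := (m_short (c := a - δ) (d := a) (by linarith)).2
    have h4 := (m_short (c := b) (d := b + δ) (by linarith)).2
    simp only [mul_comm (min _ _)]
    linarith
  have m1 : (∫ x in a..b, min |x| 1) - 2 * δ ≤ ∫ x, min |x| 1 * bump a b δ x := by
    have h1 := bump_low (c := a) (d := b) (c' := a + δ) (d' := b - δ) hδ (by linarith) le_rfl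
      le_rfl m_cont m_nonneg
    have h2 : ∫ x in a..b, min |x| 1 = (∫ x in a..(a + δ), min |x| 1) +
        (∫ x in (a + δ)..(b - δ), min |x| 1) + ∫ x in (b - δ)..b, min |x| 1 := by
      rw [intervalIntegral.integral_add_adjacent_intervals (m_cont.intervalIntegrable _ _)
        (m_cont.intervalIntegrable _ _), intervalIntegral.integral_add_adjacent_intervals
        (m_cont.intervalIntegrable _ _) (m_cont.intervalIntegrable _ _)]
    have h3 := (m_short (c := a) (d := a + δ) (by linarith)).2
    have h4 := (m_short (c := b - δ) (d := b) (by linarith)).2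
    simp only [mul_comm (min _ _)]
    linarith
  have e1 := Metric.tendsto_nhds.mp l1 (ε / 2) (by positivity)
  have e2 := Metric.tendsto_nhds.mp l2 (ε / 2) (by positivity)
  filter_upwards [e1, e2, hF] with T h1 h2 hT
  obtain ⟨hc, hnn⟩ := hT
  rw [Real.dist_eq, abs_lt] at h1 h2
  rw [Real.dist_eq, abs_lt]
  have u1 : ∫ x, bump a b δ x * F T x ≤ ∫ x in a..b, F T x := bump_up hδ hab.le hc hnn
  have u2 : ∫ x in a..b, F T x ≤ ∫ x, bump (a - δ) (b + δ) δ x * F T x :=
    bump_low hδ hab.le (by linarith) (by linarith) hc hnn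
  constructor
  · linarith [h1.1]
  · linarith [h2.2]

end Pool.Agent.W688.PF.SAND
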